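import Mathlib
import Pool.Agent.Helper35.ConfDefs
import Pool.Agent.Helper35.ConfProof

set_option autoImplicit false

namespace Pool.Agent.Results.MP_e7dc11_co.OrientationDependence

open Pool.Agent.Helper35.Conf

/-- There is a connected symmetric configuration `27₃` which is upper embeddable in one orientation
but not in another one. -/
theorem result : ∃ X : SymConfig (Fin 27), X.graph.Connected ∧
    ∃ ω₁ ω₂ : X.Orientation, UpperEmbeddable X ω₁ ∧ ¬ UpperEmbeddable X ω₂ :=
  counterexample27

end Pool.Agent.Results.MP_e7dc11_co.OrientationDependence
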